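import Pool.Agent.WAQ.Exports

/-!
# Squad WAQ, row NEO: the sets `NearE` are relatively open
-/

set_option autoImplicit false

namespace Pool.Agent.WAQ.H15

variable [Par]

theorem neo : NeoStmt := by
  intro F _ ϖ _ m0 r _
  obtain ⟨D, hD⟩ : ∃ D : Set (F × F × F),
      D = {z | z.1 * ((z.2.1 - ea F) * (z.2.1 - eb F)) ≠ 0} := ⟨_, rfl⟩
  have cD : Continuous fun z : F × F × F => z.1 * ((z.2.1 - ea F) * (z.2.1 - eb F)) := by
    fun_prop
  have oD : IsOpen D := by
    rw [hD]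
    exact isOpen_ne_fun cD continuous_const
  have cm : ContinuousOn (fun z : F × F × F => ‖mz z - m0‖) D := by
    have h1 : ContinuousOn (fun z : F × F × F =>
        z.2.2 / (z.1 * ((z.2.1 - ea F) * (z.2.1 - eb F)))) D := by
      refine ContinuousOn.div (by fun_prop) cD.continuousOn fun z hz => ?_
      rw [hD] at hz
      exact hz
    exact (h1.sub continuousOn_const).norm
  refine ⟨(D ∩ (fun z : F × F × F => ‖mz z - m0‖) ⁻¹' Set.Iio r) ∩
    ({z : F × F × F | 1 / r < ‖z.1‖} ∩ {z : F × F × F | 1 / r < ‖z.2.1‖}), ?_, ?_, ?_⟩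
  · refine (cm.isOpen_inter_preimage oD isOpen_Iio).inter (IsOpen.inter ?_ ?_)
    · exact isOpen_lt continuous_const (by fun_prop)
    · exact isOpen_lt continuous_const (by fun_prop)
  · rintro z ⟨hU, h1, h2, h3⟩
    refine ⟨⟨?_, h3⟩, h1, h2⟩
    have h4 : cub z.1 * cub z.2.1 ≠ 0 := by
      rw [← hU.1]
      exact pow_ne_zero 2 hU.2
    have h5 := left_ne_zero_of_mul h4
    have h6 := right_ne_zero_of_mul h4
    rw [cub] at h5 h6
    rw [hD]
    refine mul_ne_zero (left_ne_zero_of_mul (left_ne_zero_of_mul h5)) (mul_ne_zero ?_ ?_)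
    · exact right_ne_zero_of_mul (left_ne_zero_of_mul h6)
    · exact right_ne_zero_of_mul h6
  · rintro z ⟨⟨_, h3⟩, h1, h2⟩ hU
    exact ⟨hU, h1, h2, h3⟩

end Pool.Agent.WAQ.H15
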